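import Pool.Agent.P.MP_7a2702_mp.Main
import Pool.Agent.P.MP_7a2702_mp.Arith
import Pool.Agent.P.MP_7a2702_mp.Torsion
import Pool.Agent.P.MP_7a2702_mp.Normalizer
import Pool.Agent.P.MP_7a2702_mp.Hecke

set_option autoImplicit false

open scoped MatrixGroups
open Pool.Agent.P.MP_7a2702_mp

namespace Pool.Agent.Results.MP_7a2702_mp.NotPoisson

/-- A torsion-free, self-normalising, cocompact arithmetic Fuchsian group whose spectrum does not
have Poissonian pair correlation, whatever the normalising constant `A` (in particular for the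
area of the surface). -/
theorem result :
    ∃ Γ : Subgroup PSL(2, ℝ), IsCocompactFuchsian Γ ∧ IsArithmetic Γ ∧
      NoTorsion Γ ∧ SelfNormalising Γ ∧
      ∃ l : ℕ → ℝ, IsSpectrum Γ l ∧ ∃ a b : ℝ, a < b ∧
        ∀ A : ℝ, ¬ Filter.Tendsto (pairCorr A l a b) Filter.atTop (nhds (b - a)) := by
  have hc := cover_map neg_one_mem_G0
  have hcen : ∀ g : SL(2, ℝ), g = 1 ∨ g = -1 → g ∈ Subgroup.center SL(2, ℝ) := by
    rintro g (rfl | rfl)
    · exact one_mem _
    · exact Subgroup.mem_center_iff.2 fun h => by simp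
  have hcen' : ∀ g ∈ Subgroup.center SL(2, ℝ), g ^ 2 = 1 := by
    intro g hg
    obtain ⟨r, hr, hg⟩ := Matrix.SpecialLinearGroup.mem_center_iff.1 hg
    ext1
    rw [Matrix.SpecialLinearGroup.coe_pow, ← hg, ← map_pow]
    simp only [Fintype.card_fin] at hr
    rw [hr, map_one, Matrix.SpecialLinearGroup.coe_one]
  refine ⟨G0.map (QuotientGroup.mk' (Subgroup.center SL(2, ℝ))), ⟨?_, ?_⟩, isArithmetic_G0, ?_, ?_,
    ?_⟩
  · rw [hc]; exact cocpt_G0.disc
  · obtain ⟨R, hR⟩ := cocpt_G0.cov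
    rw [hc]
    exact ⟨Metric.closedBall UpperHalfPlane.I R, isCompact_closedBall _ _, hR⟩
  · rintro _ ⟨g, hg, rfl⟩ h
    obtain ⟨n, hn, h⟩ := isOfFinOrder_iff_pow_eq_one.1 h
    rw [← map_pow, QuotientGroup.mk'_apply, QuotientGroup.eq_one_iff] at h
    have h2 : IsOfFinOrder g := isOfFinOrder_iff_pow_eq_one.2
      ⟨n * 2, by omega, by rw [pow_mul]; exact hcen' _ h⟩
    rw [QuotientGroup.mk'_apply, QuotientGroup.eq_one_iff]
    exact hcen g (torsion_G1 (G0_le_G1 hg) h2)
  · refine le_antisymm (fun x hx => ?_) Subgroup.le_normalizer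
    obtain ⟨g, rfl⟩ := QuotientGroup.mk'_surjective _ x
    refine Subgroup.mem_map_of_mem _ (mem_G0_of_normalizes g fun γ hγ => ?_)
    rw [← hc]
    have := (Subgroup.mem_normalizer_iff.1 hx (QuotientGroup.mk' _ γ)).1
      (Subgroup.mem_map_of_mem _ hγ)
    simpa only [cover, Subgroup.mem_comap, map_mul, map_inv] using this
  · obtain ⟨a, β, hβ, h1, h2⟩ := exists_hecke
    obtain ⟨l, hl, h⟩ := analytic_main cocpt_G0 cocpt_G1 G0_le_G1 neg_one_mem_G1 a hβ h1 h2
    refine ⟨l, ?_, h⟩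
    rw [IsSpectrum, hc]
    exact hl

end Pool.Agent.Results.MP_7a2702_mp.NotPoisson
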